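import Mathlib

/-!
Shortcut-free acyclic digraphs (Hasse digraphs), colourings of relations, and the cycle lemma.
-/

namespace Pool.Agent.Lib.MP_b0c2b5_co

open Relation

universe u

variable {V : Type u}

/-- acyclic and shortcut free relation -/
structure HD (r : V → V → Prop) : Prop where
  acyc : ∀ x, ¬ TransGen r x x
  sf : ∀ x y z, r x y → r x z → ¬ TransGen r z y

/-- a proper colouring of the relation `r` with `c` colours -/
def Col (r : V → V → Prop) (c : ℕ) : Prop := ∃ f : V → Fin c, ∀ x y, r x y → f x ≠ f y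

/-- directed path of length `L` -/
def IsPath (r : V → V → Prop) (p : ℕ → V) (L : ℕ) : Prop := ∀ i < L, r (p i) (p (i+1))

lemma IsPath.transGen {r : V → V → Prop} {p : ℕ → V} {L : ℕ} (h : IsPath r p L) {i j : ℕ}
    (hij : i < j) (hj : j ≤ L) : TransGen r (p i) (p j) := by
  induction j with
  | zero => omega
  | succ j ih =>
    rcases Nat.lt_succ_iff_lt_or_eq.mp hij with h1 | h1
    · exact (ih h1 (by omega)).tail (h j (by omega))
    · subst h1
      exact TransGen.single (h i (by omega))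

lemma IsPath.reflTransGen {r : V → V → Prop} {p : ℕ → V} {L : ℕ} (h : IsPath r p L) {i j : ℕ}
    (hij : i ≤ j) (hj : j ≤ L) : ReflTransGen r (p i) (p j) := by
  rcases Nat.lt_or_eq_of_le hij with h1 | h1
  · exact (h.transGen h1 hj).to_reflTransGen
  · rw [h1]

lemma IsPath.mono {r : V → V → Prop} {p : ℕ → V} {L L' : ℕ} (h : IsPath r p L) (hL : L' ≤ L) :
    IsPath r p L' := fun i hi => h i (by omega)

/-- an `(M,t)` up-broom with bottom `x` -/
def Broom (r : V → V → Prop) (M t : ℕ) (x : V) : Prop :=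
  ∃ p : ℕ → V, p 0 = x ∧ IsPath r p M ∧ ∃ B : Finset V, B.card = t ∧
    ∀ b ∈ B, r x b ∧ b ≠ p 1 ∧ ∀ i, 1 ≤ i → i ≤ M → ¬ r b (p i)

lemma HD.flip {r : V → V → Prop} (h : HD r) : HD (Function.swap r) := by
  have key : ∀ a b, TransGen (Function.swap r) a b → TransGen r b a := by
    intro a b hab
    exact Relation.transGen_swap.mp hab
  refine ⟨fun x hx => h.acyc x (key _ _ hx), ?_⟩
  intro x y z hxy hxz hzy
  have h1 : TransGen r y z := key _ _ hzy
  -- r y x, r z x, y ⇝ z
  obtain ⟨w, hyw, hwz⟩ := (TransGen.head'_iff).mp h1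
  have h2 : TransGen r w x := TransGen.tail' hwz hxz
  exact h.sf y x w hxy hyw h2

lemma transGen_sub {r : V → V → Prop} {s : V → Prop} {a b : {v // s v}}
    (h : TransGen (fun a b : {v // s v} => r a.1 b.1) a b) : TransGen r a.1 b.1 := by
  induction h with
  | single h => exact TransGen.single h
  | tail _ h ih => exact ih.tail h

lemma HD.sub {r : V → V → Prop} (h : HD r) (s : V → Prop) :
    HD (fun a b : {v // s v} => r a.1 b.1) := by
  refine ⟨fun x hx => h.acyc x.1 (transGen_sub hx), ?_⟩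
  intro x y z hxy hxz hzy
  exact h.sf x.1 y.1 z.1 hxy hxz (transGen_sub hzy)

/-! ### colourings -/

lemma Col.mono {r : V → V → Prop} {c d : ℕ} (h : Col r c) (hcd : c ≤ d) : Col r d := by
  obtain ⟨f, hf⟩ := h
  exact ⟨fun v => Fin.castLE hcd (f v), fun x y hxy he => hf x y hxy (Fin.castLE_injective hcd he)⟩

lemma Col.prod {r a a' : V → V → Prop} {c c' : ℕ} (h : Col a c) (h' : Col a' c')
    (hr : ∀ x y, r x y → a x y ∨ a' x y) : Col r (c * c') := by
  obtain ⟨f, hf⟩ := h
  obtain ⟨g, hg⟩ := h'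
  refine ⟨fun v => finProdFinEquiv (f v, g v), ?_⟩
  intro x y hxy he
  have h1 := finProdFinEquiv.injective he
  simp only [Prod.mk.injEq] at h1
  rcases hr x y hxy with h2 | h2
  · exact hf x y h2 h1.1
  · exact hg x y h2 h1.2

/-- colour the two parts `s` and its complement with disjoint palettes -/
lemma Col.split {r : V → V → Prop} (s : V → Prop) {c d : ℕ}
    (h1 : Col (fun a b : {v // s v} => r a.1 b.1) c)
    (h2 : Col (fun a b : {v // ¬ s v} => r a.1 b.1) d) : Col r (c + d) := by
  classical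
  obtain ⟨f, hf⟩ := h1
  obtain ⟨g, hg⟩ := h2
  refine ⟨fun v => if hv : s v then Fin.castAdd d (f ⟨v, hv⟩) else Fin.natAdd c (g ⟨v, hv⟩), ?_⟩
  intro x y hxy he
  by_cases hx : s x <;> by_cases hy : s y
  · simp only [hx, hy, dite_true] at he
    exact hf ⟨x, hx⟩ ⟨y, hy⟩ hxy (Fin.castAdd_injective c d he)
  · simp only [hx, hy, dite_true, dite_false] at he
    have := congrArg Fin.val he
    simp at this
    have h3 := (f ⟨x, hx⟩).2
    omega
  · simp only [hx, hy, dite_true, dite_false] at he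
    have := congrArg Fin.val he
    simp at this
    have h3 := (f ⟨y, hy⟩).2
    omega
  · simp only [hx, hy, dite_false] at he
    exact hg ⟨x, hx⟩ ⟨y, hy⟩ hxy (Fin.natAdd_injective d c he)

end Pool.Agent.Lib.MP_b0c2b5_co
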