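import Pool.Agent.Lib.MP_b0c2b5_co.Basic

namespace Pool.Agent.Lib.MP_b0c2b5_co

open Relation

universe u

variable {V : Type u}

/-- directed path of length `n` from `u` to `v` -/
def PathLen (r : V → V → Prop) (n : ℕ) (u v : V) : Prop :=
  ∃ p : ℕ → V, p 0 = u ∧ p n = v ∧ IsPath r p n

lemma PathLen.zero (r : V → V → Prop) (u : V) : PathLen r 0 u u :=
  ⟨fun _ => u, rfl, rfl, fun i hi => by omega⟩

lemma PathLen.tail {r : V → V → Prop} {n : ℕ} {u v w : V} (h : PathLen r n u v) (hvw : r v w) :
    PathLen r (n+1) u w := by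
  obtain ⟨p, h0, hn, hp⟩ := h
  refine ⟨fun i => if i ≤ n then p i else w, by simp [h0], by simp, ?_⟩
  intro i hi
  rcases Nat.lt_or_eq_of_le (Nat.lt_succ_iff.mp hi) with h1 | h1
  · have h2 : i ≤ n := by omega
    have h3 : i + 1 ≤ n := by omega
    simp only [h2, h3, if_true]
    exact hp i h1
  · subst h1
    simp [hn, hvw]

lemma PathLen.trans {r : V → V → Prop} {n m : ℕ} {u v w : V} (h : PathLen r n u v)
    (h' : PathLen r m v w) : PathLen r (n+m) u w := by
  obtain ⟨p, h0, hn, hp⟩ := h'
  have : ∀ k ≤ m, PathLen r (n+k) u (p k) := by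
    intro k
    induction k with
    | zero => intro _; simpa [h0] using h
    | succ k ih =>
      intro hk
      exact (ih (by omega)).tail (hp k (by omega))
  have h2 := this m le_rfl
  rwa [hn] at h2

lemma exists_pathLen_of_refl {r : V → V → Prop} {u v : V} (h : ReflTransGen r u v) :
    ∃ n, PathLen r n u v := by
  induction h with
  | refl => exact ⟨0, PathLen.zero r u⟩
  | tail _ h ih =>
    obtain ⟨n, hn⟩ := ih
    exact ⟨n+1, hn.tail h⟩

lemma pathLen_lt_card [Fintype V] {r : V → V → Prop} (hac : ∀ x, ¬ TransGen r x x) {n : ℕ} {u v : V}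
    (h : PathLen r n u v) : n < Fintype.card V := by
  obtain ⟨p, -, -, hp⟩ := h
  have hinj : Function.Injective (fun i : Fin (n+1) => p i) := by
    intro i j hij
    by_contra hne
    rcases lt_or_gt_of_ne (fun h : (i:ℕ) = j => hne (Fin.ext h)) with h1 | h1
    · have := hp.transGen h1 (by omega)
      simp only at hij
      rw [hij] at this
      exact hac _ this
    · have := hp.transGen h1 (by omega)
      simp only at hij
      rw [hij] at this
      exact hac _ this
  have := Fintype.card_le_of_injective _ hinj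
  simpa using this

/-- walks ending in `v` with `k` backward steps along `a` and `f` forward steps along `r` -/
def S (r a : V → V → Prop) : ℕ → V → ℕ → Prop
  | 0, v, f => ∃ u, PathLen r f u v
  | (k+1), v, f => ∃ b x f' j, S r a k b f' ∧ a x b ∧ PathLen r j x v ∧ f = f' + j

lemma S.extend {r a : V → V → Prop} {k : ℕ} {v w : V} {f n : ℕ} (h : S r a k v f)
    (h' : PathLen r n v w) : S r a k w (f+n) := by
  cases k with
  | zero =>
    obtain ⟨u, hu⟩ := h
    exact ⟨u, hu.trans h'⟩
  | succ k =>
    obtain ⟨b, x, f', j, h1, h2, h3, h4⟩ := h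
    exact ⟨b, x, f', j + n, h1, h2, h3.trans h', by omega⟩

lemma S.bound [Fintype V] {r a : V → V → Prop} (hac : ∀ x, ¬ TransGen r x x) {L : ℕ}
    (hL : ∀ x b, a x b → ∀ p : ℕ → V, p 0 = x → IsPath r p L → ReflTransGen r b (p L)) :
    ∀ k v f, S r a k v f → f ≤ Fintype.card V + L * k := by
  intro k
  induction k with
  | zero =>
    intro v f h
    obtain ⟨u, hu⟩ := h
    have := pathLen_lt_card hac hu
    omega
  | succ k ih =>
    intro v f h
    obtain ⟨b, x, f', j, h1, h2, h3, h4⟩ := h
    by_cases hj : j < L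
    · have := ih b f' h1
      rw [Nat.mul_succ]
      omega
    · push Not at hj
      obtain ⟨p, hp0, hpj, hp⟩ := h3
      obtain ⟨n, hn⟩ := exists_pathLen_of_refl (hL x b h2 p hp0 (hp.mono hj))
      have h5 : PathLen r (j - L) (p L) v := by
        refine ⟨fun i => p (L + i), rfl, ?_, ?_⟩
        · simp only
          rw [show L + (j - L) = j by omega, hpj]
        · intro i hi
          exact hp (L + i) (by omega)
      have h6 := h1.extend (hn.trans h5)
      have := ih v _ h6
      rw [Nat.mul_succ]
      omega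

/-- The cycle lemma (Minty potential). -/
theorem cycle_lemma [Fintype V] {r a : V → V → Prop} (hac : ∀ x, ¬ TransGen r x x)
    (har : ∀ x b, a x b → r x b) {L : ℕ}
    (hL : ∀ x b, a x b → ∀ p : ℕ → V, p 0 = x → IsPath r p L → ReflTransGen r b (p L)) :
    Col a (L+1) := by
  classical
  -- the set of values
  set T : V → Set ℤ := fun v => {z : ℤ | ∃ k f, S r a k v f ∧ z = (f : ℤ) - L * k} with hT
  have hne : ∀ v, (0:ℤ) ∈ T v := fun v => ⟨0, 0, ⟨v, PathLen.zero r v⟩, by simp⟩
  have hbd : ∀ v, ∀ z ∈ T v, z ≤ Fintype.card V := by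
    rintro v z ⟨k, f, h, rfl⟩
    have := S.bound hac hL k v f h
    have h2 : (f : ℤ) ≤ Fintype.card V + L * k := by exact_mod_cast this
    linarith
  have hmax : ∀ v, ∃ m ∈ T v, ∀ z ∈ T v, z ≤ m := by
    intro v
    obtain ⟨m, hm1, hm2⟩ := Int.exists_greatest_of_bdd (P := fun z => z ∈ T v)
      ⟨Fintype.card V, hbd v⟩ ⟨0, hne v⟩
    exact ⟨m, hm1, hm2⟩
  choose π hπ1 hπ2 using hmax
  have h1 : ∀ x b, a x b → π x + 1 ≤ π b := by
    intro x b hab
    obtain ⟨k, f, h, he⟩ := hπ1 x
    apply hπ2 b
    refine ⟨k, f+1, h.extend ((PathLen.zero r x).tail (har x b hab)), ?_⟩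
    push_cast
    linarith
  have h2 : ∀ x b, a x b → π b - L ≤ π x := by
    intro x b hab
    obtain ⟨k, f, h, he⟩ := hπ1 b
    apply hπ2 x
    refine ⟨k+1, f, ⟨b, x, f, 0, h, hab, PathLen.zero r x, by simp⟩, ?_⟩
    push_cast
    rw [he]
    ring
  have hpos : (0:ℤ) < (L:ℤ) + 1 := by positivity
  refine ⟨fun v => ⟨(π v % ((L:ℤ)+1)).toNat, ?_⟩, ?_⟩
  · have := Int.emod_lt_of_pos (π v) hpos
    have h3 := Int.emod_nonneg (π v) hpos.ne'
    omega
  · intro x y hxy he
    have h3 := h1 x y hxy
    have h4 := h2 x y hxy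
    have h5 := congrArg Fin.val he
    simp only at h5
    have h6 := Int.emod_nonneg (π x) hpos.ne'
    have h7 := Int.emod_nonneg (π y) hpos.ne'
    have h8 : π x % ((L:ℤ)+1) = π y % ((L:ℤ)+1) := by omega
    have h9 : ((L:ℤ)+1) ∣ π y - π x := Int.ModEq.dvd h8
    obtain ⟨q, hq⟩ := h9
    have h10 : 0 < q := by
      by_contra hcon
      push Not at hcon
      nlinarith
    nlinarith

/-- acyclic relations containing `a'` of bounded out-degree are colourable -/
theorem degenerate_col [Fintype V] {r a' : V → V → Prop} (hac : ∀ x, ¬ TransGen r x x)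
    (har : ∀ x b, a' x b → r x b) {D : ℕ}
    (hD : ∀ x, Set.ncard {b | a' x b} ≤ D) : Col a' (D+1) := by
  classical
  have key : ∀ s : Finset V, ∃ f : V → Fin (D+1), ∀ x ∈ s, ∀ y ∈ s, a' x y → f x ≠ f y := by
    intro s
    induction s using Finset.strongInduction with
    | H s ih =>
      by_cases hs : s.Nonempty
      · -- a vertex without in-neighbours in `s`
        have hsrc : ∃ x ∈ s, ∀ y ∈ s, ¬ r y x := by
          have hwf : WellFounded (fun a b : V => TransGen r a b) := by
            haveI : IsTrans V (fun a b : V => TransGen r a b) := ⟨fun _ _ _ => TransGen.trans⟩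
            haveI : Std.Irrefl (fun a b : V => TransGen r a b) := ⟨hac⟩
            exact Finite.wellFounded_of_trans_of_irrefl _
          obtain ⟨x, hx, hmin⟩ := hwf.has_min (s : Set V) hs
          exact ⟨x, hx, fun y hy hyx => hmin y hy (TransGen.single hyx)⟩
        obtain ⟨x, hx, hxs⟩ := hsrc
        obtain ⟨f, hf⟩ := ih (s.erase x) (Finset.erase_ssubset hx)
        have hfree : ∃ c : Fin (D+1), ∀ y, a' x y → f y ≠ c := by
          by_contra hcon
          push Not at hcon
          have : (Finset.univ : Finset (Fin (D+1))) ⊆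
              (Finset.univ.filter (fun b => a' x b)).image f := by
            intro c _
            obtain ⟨y, hy, hyc⟩ := hcon c
            exact Finset.mem_image.mpr ⟨y, by simpa using hy, hyc⟩
          have h1 := Finset.card_le_card this
          have h2 := Finset.card_image_le (s := Finset.univ.filter (fun b => a' x b)) (f := f)
          have h3 := hD x
          rw [Set.ncard_eq_toFinset_card'] at h3
          have h4 : (Set.toFinset {b | a' x b}) = Finset.univ.filter (fun b => a' x b) := by
            ext; simp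
          rw [h4] at h3
          simp only [Finset.card_univ, Fintype.card_fin] at h1
          omega
        obtain ⟨c, hc⟩ := hfree
        refine ⟨Function.update f x c, ?_⟩
        intro u hu v hv huv
        by_cases h1 : u = x
        · subst h1
          have h2 : v ≠ u := by
            rintro rfl
            exact hxs v hv (har _ _ huv)
          rw [Function.update_self, Function.update_of_ne h2]
          exact (hc v huv).symm
        · by_cases h2 : v = x
          · subst h2
            exact absurd (har _ _ huv) (hxs u hu)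
          · rw [Function.update_of_ne h1, Function.update_of_ne h2]
            exact hf u (Finset.mem_erase.mpr ⟨h1, hu⟩) v (Finset.mem_erase.mpr ⟨h2, hv⟩) huv
      · rw [Finset.not_nonempty_iff_eq_empty] at hs
        subst hs
        exact ⟨fun _ => 0, by simp⟩
  obtain ⟨f, hf⟩ := key Finset.univ
  exact ⟨f, fun x y hxy => hf x (Finset.mem_univ _) y (Finset.mem_univ _) hxy⟩

/-- Gallai-Roy for acyclic relations. -/
theorem gallai_roy [Fintype V] {r : V → V → Prop} (hac : ∀ x, ¬ TransGen r x x) {L : ℕ}
    (hL : ¬ ∃ p : ℕ → V, IsPath r p L) : Col r L := by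
  classical
  have hb : ∀ v n, (∃ u, PathLen r n v u) → n < L := by
    rintro v n ⟨u, p, -, -, hp⟩
    by_contra hcon
    push Not at hcon
    exact hL ⟨p, hp.mono hcon⟩
  have hex : ∀ v, ∃ m, (∃ u, PathLen r m v u) ∧ ∀ n, (∃ u, PathLen r n v u) → n ≤ m := by
    intro v
    have h0 : ∃ u, PathLen r 0 v u := ⟨v, PathLen.zero r v⟩
    refine ⟨Nat.findGreatest (fun n => ∃ u, PathLen r n v u) L, ?_, ?_⟩
    · exact Nat.findGreatest_spec (P := fun n => ∃ u, PathLen r n v u) (Nat.zero_le L) h0
    · intro n hn
      exact Nat.le_findGreatest (hb v n hn).le hn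
  choose m hm1 hm2 using hex
  refine ⟨fun v => ⟨m v, hb v _ (hm1 v)⟩, ?_⟩
  intro x y hxy he
  have h1 := congrArg Fin.val he
  simp only at h1
  obtain ⟨u, hu⟩ := hm1 y
  have h2 : PathLen r (1 + m y) x u := ((PathLen.zero r x).tail hxy).trans hu
  have := hm2 x _ ⟨u, h2⟩
  omega

end Pool.Agent.Lib.MP_b0c2b5_co
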