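import Pool.Agent.Lib.MP_b0c2b5_co.Cycle

namespace Pool.Agent.Lib.MP_b0c2b5_co

open Relation Finset

universe u

variable {V : Type u} [Fintype V]

open Classical in
/-- out-neighbours of `x` that do not see `y` -/
noncomputable def exc (r : V → V → Prop) (x y : V) : Finset V :=
  univ.filter (fun b => r x b ∧ ¬ r b y)

lemma mem_exc {r : V → V → Prop} {x y b : V} : b ∈ exc r x y ↔ r x b ∧ ¬ r b y := by
  classical
  simp [exc]

/-- The focusing lemma. -/
lemma focus {r : V → V → Prop} (h : HD r) {M t : ℕ} (hM : 2 ≤ M) {x : V}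
    (hb : ¬ Broom r M t x) (p : ℕ → V) (hp0 : p 0 = x) (hp : IsPath r p (2*M)) :
    ∃ K, 2 ≤ K ∧ K ≤ M ∧ (exc r x (p K)).card ≤ 2*t := by
  classical
  set S : Finset ℕ := (Finset.Icc 2 M).filter (fun j => ∃ b, r x b ∧ r b (p j)) with hS
  have hx1 : r x (p 1) := by
    have := hp 0 (by omega)
    rwa [hp0] at this
  have h12 : r (p 1) (p 2) := hp 1 (by omega)
  have hSne : S.Nonempty := ⟨2, by
    simp only [hS, Finset.mem_filter, Finset.mem_Icc]
    exact ⟨⟨le_rfl, hM⟩, p 1, hx1, h12⟩⟩
  obtain ⟨hK1, hK3⟩ := Finset.mem_filter.mp (S.max'_mem hSne)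
  set K := S.max' hSne with hK
  rw [Finset.mem_Icc] at hK1
  obtain ⟨bs, hbs1, hbs2⟩ := hK3
  refine ⟨K, hK1.1, hK1.2, ?_⟩
  have hxne : ∀ b, r x b → ¬ r b (p 1) := by
    intro b hxb hb1
    exact h.sf x (p 1) b hx1 hxb (TransGen.single hb1)
  set E1 : Finset V := univ.filter (fun b => r x b ∧ ∀ j, 2 ≤ j → j ≤ M → ¬ r b (p j)) with hE1
  set E2 : Finset V := univ.filter (fun b => r x b ∧ ∃ j, 2 ≤ j ∧ j < K ∧ r b (p j)) with hE2
  have hcard1 : E1.card < t := by
    by_contra hcon
    push Not at hcon
    obtain ⟨B, hB1, hB2⟩ := Finset.exists_subset_card_eq hcon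
    apply hb
    refine ⟨p, hp0, hp.mono (by omega), B, hB2, ?_⟩
    intro b hbB
    have hbE := hB1 hbB
    simp only [hE1, Finset.mem_filter, Finset.mem_univ, true_and] at hbE
    refine ⟨hbE.1, ?_, ?_⟩
    · rintro rfl
      exact hbE.2 2 le_rfl hM h12
    · intro i hi1 hi2
      by_cases hi : i = 1
      · subst hi
        exact hxne b hbE.1
      · exact hbE.2 i (by omega) hi2
  have hcard2 : E2.card < t := by
    by_contra hcon
    push Not at hcon
    obtain ⟨B, hB1, hB2⟩ := Finset.exists_subset_card_eq hcon
    apply hb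
    refine ⟨fun n => if n = 0 then x else if n = 1 then bs else p (K + (n-2)), by simp, ?_, B, hB2, ?_⟩
    · intro i hi
      rcases Nat.eq_zero_or_pos i with h0 | h0
      · subst h0; simpa using hbs1
      · by_cases h1 : i = 1
        · subst h1; simpa using hbs2
        · have h2 : i ≠ 0 := by omega
          have h3 : i + 1 ≠ 0 := by omega
          have h4 : i + 1 ≠ 1 := by omega
          have h5 : i + 1 - 2 = (i - 2) + 1 := by omega
          simp only [h2, h1, h3, h4, if_false, h5]
          exact hp (K + (i-2)) (by omega)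
    · intro b hbB
      have hbE := hB1 hbB
      simp only [hE2, Finset.mem_filter, Finset.mem_univ, true_and] at hbE
      obtain ⟨hxb, j, hj2, hjK, hbj⟩ := hbE
      refine ⟨hxb, ?_, ?_⟩
      · simp only [one_ne_zero, if_false, if_true]
        rintro rfl
        exact h.sf b (p K) (p j) hbs2 hbj (hp.transGen hjK (by omega))
      · intro i hi1 hi2
        by_cases h1 : i = 1
        · subst h1
          simp only [one_ne_zero, if_false, if_true]
          intro hbb
          exact h.sf x bs b hbs1 hxb (TransGen.single hbb)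
        · have h2 : i ≠ 0 := by omega
          simp only [h2, h1, if_false]
          intro hbb
          exact h.sf b (p (K + (i-2))) (p j) hbb hbj (hp.transGen (by omega) (by omega))
  have hsub : exc r x (p K) ⊆ E1 ∪ E2 := by
    intro b hbm
    rw [mem_exc] at hbm
    rw [Finset.mem_union]
    by_cases hall : ∀ j, 2 ≤ j → j ≤ M → ¬ r b (p j)
    · left
      simp only [hE1, Finset.mem_filter, Finset.mem_univ, true_and]
      exact ⟨hbm.1, hall⟩
    · right
      push Not at hall
      obtain ⟨j, hj2, hjM, hbj⟩ := hall
      simp only [hE2, Finset.mem_filter, Finset.mem_univ, true_and]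
      refine ⟨hbm.1, j, hj2, ?_, hbj⟩
      have hjS : j ∈ S := by
        simp only [hS, Finset.mem_filter, Finset.mem_Icc]
        exact ⟨⟨hj2, hjM⟩, b, hbm.1, hbj⟩
      have hle := S.le_max' j hjS
      rw [← hK] at hle
      rcases Nat.lt_or_eq_of_le hle with h1 | h1
      · exact h1
      · subst h1
        exact absurd hbj hbm.2
  have h1 := Finset.card_le_card hsub
  have h2 := Finset.card_union_le E1 E2
  omega

open Classical in
/-- out-neighbourhood as a finset -/
noncomputable def outN (r : V → V → Prop) (x : V) : Finset V := univ.filter (fun b => r x b)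

lemma mem_outN {r : V → V → Prop} {x b : V} : b ∈ outN r x ↔ r x b := by
  classical
  simp [outN]

open Classical in
/-- the foci of `x` -/
noncomputable def foc (r : V → V → Prop) (t : ℕ) (x : V) : Finset V :=
  univ.filter (fun y => (exc r x y).card ≤ 2*t)

lemma mem_foc {r : V → V → Prop} {t : ℕ} {x y : V} :
    y ∈ foc r t x ↔ (exc r x y).card ≤ 2*t := by
  classical
  simp [foc]

open Classical in
/-- foci of `x` not seen by `b` -/
noncomputable def miss (r : V → V → Prop) (t : ℕ) (x b : V) : Finset V :=
  (foc r t x).filter (fun y => ¬ r b y)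

/-- The second step: many foci. -/
lemma second {r : V → V → Prop} (h : HD r) {M t : ℕ} (hM : 2 ≤ M)
    (hbr : ∀ x, ¬ Broom r M t x) {x b : V} (hxb : r x b)
    (hdeg : 6*t < (outN r x).card) (hF : 8*t < (foc r t x).card)
    (hmiss : 2 * (miss r t x b).card ≤ (foc r t x).card)
    (p : ℕ → V) (hp0 : p 0 = x) (hp : IsPath r p (3*M)) :
    ReflTransGen r b (p (3*M)) := by
  classical
  obtain ⟨K, hK2, hKM, hKe⟩ := focus h hM (hbr x) p hp0 (hp.mono (by omega))
  by_cases hby : r b (p K)
  · exact (ReflTransGen.single hby).trans (hp.reflTransGen (by omega) le_rfl)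
  -- the foci seen by b
  set Fb : Finset V := (foc r t x).filter (fun y => r b y) with hFb
  have hFbc : (foc r t x).card ≤ 2 * Fb.card := by
    have h1 : Fb.card + (miss r t x b).card = (foc r t x).card := by
      rw [hFb, miss]
      exact Finset.card_filter_add_card_filter_not _
    omega
  set B1 : Finset V := (outN r x).filter (fun b' => r b' (p K)) with hB1
  have hB1c : 4*t < B1.card := by
    have h1 : B1.card + (exc r x (p K)).card = (outN r x).card := by
      have h2 : exc r x (p K) = (outN r x).filter (fun b' => ¬ r b' (p K)) := by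
        ext z
        simp [mem_exc, mem_outN]
      rw [h2, hB1]
      exact Finset.card_filter_add_card_filter_not _
    omega
  -- double counting
  have hex : ∃ b1 ∈ B1, 2 * (Fb.filter (fun y => ¬ r b1 y)).card ≤ Fb.card := by
    by_contra hcon
    push Not at hcon
    have hs1 : B1.card * Fb.card < ∑ b1 ∈ B1, 2 * (Fb.filter (fun y => ¬ r b1 y)).card := by
      calc B1.card * Fb.card = ∑ b1 ∈ B1, Fb.card := by rw [Finset.sum_const, smul_eq_mul]
        _ < _ := Finset.sum_lt_sum_of_nonempty (Finset.card_pos.mp (by omega)) hcon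
    have hs2 : ∑ b1 ∈ B1, (Fb.filter (fun y => ¬ r b1 y)).card ≤ Fb.card * (2*t) := by
      have hsw : ∑ b1 ∈ B1, (Fb.filter (fun y => ¬ r b1 y)).card
          = ∑ y ∈ Fb, (B1.filter (fun b1 => ¬ r b1 y)).card := by
        simp only [Finset.card_filter]
        exact Finset.sum_comm
      rw [hsw]
      calc ∑ y ∈ Fb, (B1.filter (fun b1 => ¬ r b1 y)).card ≤ ∑ y ∈ Fb, 2*t := by
            apply Finset.sum_le_sum
            intro y hy
            have h1 : y ∈ foc r t x := (Finset.mem_filter.mp hy).1
            rw [mem_foc] at h1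
            refine le_trans (Finset.card_le_card ?_) h1
            intro z hz
            simp only [hB1, Finset.mem_filter, mem_outN] at hz
            rw [mem_exc]
            exact ⟨hz.1.1, hz.2⟩
        _ = Fb.card * (2*t) := by rw [Finset.sum_const, smul_eq_mul]
    rw [← Finset.mul_sum] at hs1
    have h3 : B1.card * Fb.card < 4*t * Fb.card := by nlinarith
    have h4 : B1.card < 4 * t := lt_of_mul_lt_mul_right h3 (Nat.zero_le _)
    omega
  obtain ⟨b1, hb1B, hb1F⟩ := hex
  have hb1B' : r x b1 ∧ r b1 (p K) := by
    simpa [hB1, mem_outN] using hb1B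
  -- foci seen by both b and b1
  set G : Finset V := Fb.filter (fun y => r b1 y) with hG
  have hGc : 2*t < G.card := by
    have h1 : G.card + (Fb.filter (fun y => ¬ r b1 y)).card = Fb.card := by
      rw [hG]
      exact Finset.card_filter_add_card_filter_not _
    omega
  -- focus of b1 along the run
  obtain ⟨K', hK'2, hK'M, hK'e⟩ := focus h hM (hbr b1)
    (fun n => if n = 0 then b1 else p (K + (n-1))) (by simp) (by
      intro i hi
      rcases Nat.eq_zero_or_pos i with h0 | h0
      · subst h0; simpa using hb1B'.2
      · have h2 : i ≠ 0 := by omega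
        have h3 : i + 1 ≠ 0 := by omega
        have h5 : i + 1 - 1 = (i - 1) + 1 := by omega
        simp only [h2, h3, if_false, h5]
        exact hp (K + (i-1)) (by omega))
  have hK'0 : K' ≠ 0 := by omega
  simp only [hK'0, if_false] at hK'e
  have hex2 : ∃ y ∈ G, r y (p (K + (K'-1))) := by
    by_contra hcon
    push Not at hcon
    have hsub : G ⊆ exc r b1 (p (K + (K'-1))) := by
      intro y hy
      rw [mem_exc]
      exact ⟨(Finset.mem_filter.mp hy).2, hcon y hy⟩
    have := Finset.card_le_card hsub
    omega
  obtain ⟨y, hyG, hy⟩ := hex2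
  have hby' : r b y := by
    have h1 := (Finset.mem_filter.mp hyG).1
    exact (Finset.mem_filter.mp h1).2
  exact ((ReflTransGen.single hby').tail hy).trans (hp.reflTransGen (by omega) le_rfl)

open Classical in
/-- removed out-neighbours -/
noncomputable def rem (r : V → V → Prop) (t : ℕ) (x : V) : Finset V :=
  if (foc r t x).card ≤ 8*t then
    (outN r x).filter (fun b => ∃ y ∈ foc r t x, ¬ r b y)
  else
    (outN r x).filter (fun b => (foc r t x).card < 2 * (miss r t x b).card)

lemma sum_miss {r : V → V → Prop} {t : ℕ} {x : V} :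
    ∑ b ∈ outN r x, (miss r t x b).card ≤ (foc r t x).card * (2*t) := by
  classical
  have hsw : ∑ b ∈ outN r x, (miss r t x b).card
      = ∑ y ∈ foc r t x, ((outN r x).filter (fun b => ¬ r b y)).card := by
    simp only [miss, Finset.card_filter]
    exact Finset.sum_comm
  rw [hsw]
  calc ∑ y ∈ foc r t x, ((outN r x).filter (fun b => ¬ r b y)).card ≤ ∑ y ∈ foc r t x, 2*t := by
        apply Finset.sum_le_sum
        intro y hy
        rw [mem_foc] at hy
        refine le_trans (Finset.card_le_card ?_) hy
        intro z hz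
        simp only [Finset.mem_filter, mem_outN] at hz
        rw [mem_exc]
        exact hz
    _ = (foc r t x).card * (2*t) := by rw [Finset.sum_const, smul_eq_mul]

lemma card_rem {r : V → V → Prop} {t : ℕ} {x : V} :
    (rem r t x).card ≤ 16*t^2 + 4*t := by
  classical
  have hsum := sum_miss (r := r) (t := t) (x := x)
  unfold rem
  split_ifs with hc
  · have h1 : ((outN r x).filter (fun b => ∃ y ∈ foc r t x, ¬ r b y)).card
        ≤ ∑ b ∈ outN r x, (miss r t x b).card := by
      rw [Finset.card_filter]
      apply Finset.sum_le_sum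
      intro b _
      split_ifs with hb
      · obtain ⟨y, hy, hby⟩ := hb
        exact Finset.card_pos.mpr ⟨y, by simp [miss, hy, hby]⟩
      · exact Nat.zero_le _
    nlinarith
  · push Not at hc
    set R := (outN r x).filter (fun b => (foc r t x).card < 2 * (miss r t x b).card) with hR
    have h1 : R.card * (foc r t x).card ≤ ∑ b ∈ outN r x, 2 * (miss r t x b).card := by
      calc R.card * (foc r t x).card = ∑ b ∈ R, (foc r t x).card := by
            rw [Finset.sum_const, smul_eq_mul]
        _ ≤ ∑ b ∈ R, 2 * (miss r t x b).card := by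
            apply Finset.sum_le_sum
            intro b hb
            exact (Finset.mem_filter.mp hb).2.le
        _ ≤ ∑ b ∈ outN r x, 2 * (miss r t x b).card := by
            apply Finset.sum_le_sum_of_subset
            exact Finset.filter_subset _ _
    rw [← Finset.mul_sum] at h1
    have h2 : R.card * (foc r t x).card ≤ (4*t) * (foc r t x).card := by nlinarith
    have h3 : R.card ≤ 4*t := Nat.le_of_mul_le_mul_right h2 (by omega)
    nlinarith [sq_nonneg t]

/-- Theorem A: without `(M,t)`-brooms the chromatic number is bounded. -/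
theorem theoremA {r : V → V → Prop} (h : HD r) {M t : ℕ} (hM : 2 ≤ M)
    (hbr : ∀ x, ¬ Broom r M t x) : Col r ((3*M+1) * ((16*t^2+10*t)+1)) := by
  classical
  set a : V → V → Prop := fun x b => r x b ∧ 6*t < (outN r x).card ∧ b ∉ rem r t x with ha
  set a' : V → V → Prop := fun x b => r x b ∧ ((outN r x).card ≤ 6*t ∨ b ∈ rem r t x) with ha'
  have hcol : Col a (3*M+1) := by
    apply cycle_lemma h.acyc (fun x b hab => hab.1)
    intro x b hab p hp0 hp
    obtain ⟨hxb, hdeg, hrem⟩ := hab
    by_cases hc : (foc r t x).card ≤ 8*t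
    · obtain ⟨K, hK2, hKM, hKe⟩ := focus h hM (hbr x) p hp0 (hp.mono (by omega))
      have hby : r b (p K) := by
        by_contra hcon
        apply hrem
        unfold rem
        rw [if_pos hc]
        simp only [Finset.mem_filter, mem_outN]
        exact ⟨hxb, p K, mem_foc.mpr hKe, hcon⟩
      exact (ReflTransGen.single hby).trans (hp.reflTransGen (by omega) le_rfl)
    · have hmiss : 2 * (miss r t x b).card ≤ (foc r t x).card := by
        by_contra hcon
        push Not at hcon
        apply hrem
        unfold rem
        rw [if_neg hc]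
        simp only [Finset.mem_filter, mem_outN]
        exact ⟨hxb, hcon⟩
      push Not at hc
      exact second h hM hbr hxb hdeg hc hmiss p hp0 hp
  have hcol' : Col a' ((16*t^2+10*t)+1) := by
    apply degenerate_col h.acyc (fun x b hab => hab.1)
    intro x
    by_cases hdeg : (outN r x).card ≤ 6*t
    · have hsub : {b | a' x b} ⊆ ((outN r x : Finset V) : Set V) := by
        intro b hb
        simp only [Finset.mem_coe, mem_outN]
        exact hb.1
      have h1 := Set.ncard_le_ncard hsub (Finset.finite_toSet _)
      rw [Set.ncard_coe_finset] at h1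
      nlinarith [sq_nonneg t]
    · have hsub : {b | a' x b} ⊆ ((rem r t x : Finset V) : Set V) := by
        intro b hb
        simp only [Finset.mem_coe]
        exact hb.2.resolve_left hdeg
      have h1 := Set.ncard_le_ncard hsub (Finset.finite_toSet _)
      rw [Set.ncard_coe_finset] at h1
      have h2 := card_rem (r := r) (t := t) (x := x)
      omega
  refine hcol.prod hcol' ?_
  intro x y hxy
  by_cases h1 : (outN r x).card ≤ 6*t
  · exact Or.inr ⟨hxy, Or.inl h1⟩
  · by_cases h2 : y ∈ rem r t x
    · exact Or.inr ⟨hxy, Or.inr h2⟩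
    · exact Or.inl ⟨hxy, by omega, h2⟩

end Pool.Agent.Lib.MP_b0c2b5_co
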