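import Pool.Agent.Lib.MP_b0c2b5_co.Focus

namespace Pool.Agent.Lib.MP_b0c2b5_co

open Relation Finset

universe u w

lemma transGen_pull {V : Type u} {W : Type w} {r : V → V → Prop} (g : W → V) {a b : W}
    (h : TransGen (fun a b : W => r (g a) (g b)) a b) : TransGen r (g a) (g b) := by
  induction h with
  | single h => exact TransGen.single h
  | tail _ h ih => exact ih.tail h

lemma HD.pull {V : Type u} {W : Type w} {r : V → V → Prop} (h : HD r) (g : W → V) :
    HD (fun a b : W => r (g a) (g b)) := by
  refine ⟨fun x hx => h.acyc (g x) (transGen_pull g hx), ?_⟩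
  intro x y z hxy hxz hzy
  exact h.sf (g x) (g y) (g z) hxy hxz (transGen_pull g hzy)

lemma Broom.push {V : Type u} {W : Type w} {r : V → V → Prop} {g : W → V}
    (hg : Function.Injective g) {M t : ℕ} {x : W}
    (h : Broom (fun a b : W => r (g a) (g b)) M t x) : Broom r M t (g x) := by
  classical
  obtain ⟨p, hp0, hp, B, hB, hBB⟩ := h
  refine ⟨fun n => g (p n), by simp [hp0], hp, B.image g, ?_, ?_⟩
  · rw [Finset.card_image_of_injective B hg, hB]
  · intro b hb
    obtain ⟨c, hc, rfl⟩ := Finset.mem_image.mp hb
    obtain ⟨h1, h2, h3⟩ := hBB c hc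
    exact ⟨h1, fun he => h2 (hg he), h3⟩

/-- bound of Theorem A -/
def cA (M t : ℕ) : ℕ := (3*M+1) * ((16*t^2+10*t)+1)

/-- Gluing: either few colours, or a directed path of length `l` from a top of a down-broom to a
bottom of an up-broom. -/
theorem glue {V : Type u} [Fintype V] {r : V → V → Prop} (h : HD r) {M t l : ℕ} (hM : 2 ≤ M) :
    Col r (2 * cA M t + l) ∨
    ∃ q : ℕ → V, IsPath r q l ∧ Broom (Function.swap r) M t (q 0) ∧ Broom r M t (q l) := by
  classical
  by_contra hcon
  push Not at hcon
  obtain ⟨hcol, hno⟩ := hcon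
  apply hcol
  -- first part: no up-broom
  have h1 : Col (fun a b : {v // ¬ Broom r M t v} => r a.1 b.1) (cA M t) := by
    have := theoremA (h.pull (fun a : {v // ¬ Broom r M t v} => a.1)) (M := M) (t := t) hM (by
      intro x hx
      exact x.2 (hx.push Subtype.val_injective))
    exact this
  -- second part
  have h2 : Col (fun a b : {v // ¬ ¬ Broom r M t v} => r a.1 b.1) (cA M t + l) := by
    apply Col.split (fun v : {v // ¬ ¬ Broom r M t v} => ¬ Broom (Function.swap r) M t v.1)
    · have := theoremA ((h.flip).pull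
        (fun a : {v : {v // ¬ ¬ Broom r M t v} // ¬ Broom (Function.swap r) M t v.1} => a.1.1))
        (M := M) (t := t) hM (by
          intro x hx
          exact x.2 (hx.push (r := Function.swap r)
            (Subtype.val_injective.comp Subtype.val_injective)))
      obtain ⟨f, hf⟩ := this
      exact ⟨f, fun x y hxy => (hf y x hxy).symm⟩
    · apply gallai_roy ((h.pull (fun a : {v : {v // ¬ ¬ Broom r M t v} //
        ¬ ¬ Broom (Function.swap r) M t v.1} => a.1.1)).acyc)
      rintro ⟨p, hp⟩
      exact hno (fun n => (p n).1.1) hp (not_not.mp (p 0).2) (not_not.mp (p l).1.2)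
  have h3 := Col.split _ h1 h2
  exact h3.mono (by omega)

end Pool.Agent.Lib.MP_b0c2b5_co
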